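import Pool.Agent.Lib.GL51.Main

namespace Pool.Agent.Results.MP_71cb23_co.GridLayers

open Layer71 GL51

theorem result (d : ℕ) (hd : 1 ≤ d) : ∃ c > (0 : ℝ), ∃ C : ℝ, ∀ n : ℕ, 1 ≤ n →
    c * (n : ℝ) ^ (2 * d / (d + 1) : ℝ) ≤ layer (grid d n) ∧
      (layer (grid d n) : ℝ) ≤ C * (n : ℝ) ^ (2 * d / (d + 1) : ℝ) :=
  main hd

end Pool.Agent.Results.MP_71cb23_co.GridLayers
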