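import Pool.Agent.Lib.MP_71cb23_co.Main

namespace Pool.Agent.Results.MP_71cb23_co.SharpExponent

open Layer71 Filter

theorem result (d : ℕ) (hd : 1 ≤ d) :
    (∀ α > (1 : ℝ), ∃ C : ℝ, ∀ X : Finset (EuclideanSpace ℝ (Fin d)), Evenly α X →
      (layer X : ℝ) ≤ C * (X.card : ℝ) ^ (2 / d - 1 / (d * 2 ^ (d - 1)) : ℝ)) ∧
    (∃ α > (1 : ℝ), ∃ c > (0 : ℝ), ∀ N : ℕ, ∃ X : Finset (EuclideanSpace ℝ (Fin d)),
      Evenly α X ∧ N ≤ X.card ∧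
        c * (X.card : ℝ) ^ (2 / d - 1 / (d * 2 ^ (d - 1)) : ℝ) ≤ layer X) ∧
    (3 ≤ d → ∀ α > (1 : ℝ), ¬ ∃ c > (0 : ℝ), ∃ Y : ℕ → Finset (EuclideanSpace ℝ (Fin d)),
      (∀ m, Evenly α (Y m)) ∧ Tendsto (fun m => (Y m).card) atTop atTop ∧
        ∀ m, c * ((Y m).card : ℝ) ^ ((d + 1) / (2 * d) : ℝ) ≤ layer (Y m)) :=
  ⟨fun α _ => upper hd α, lower hd, fun h α _ => not_sharp h α⟩

end Pool.Agent.Results.MP_71cb23_co.SharpExponent
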